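import Pool.Agent.helper83.SC.Stmt

/-! # Module EN1 : the envelope -/

open scoped Pointwise ContDiff
open MeasureTheory Set Filter Topology

namespace Pool.Agent.helper83.SC

theorem exists_envelope_of : exists_envelope_stmt := by
  intro m hm g hg r hr
  set e₀ : E m := e ⟨0, hm⟩ with he₀
  have he : ‖e₀‖ = 1 := by rw [he₀]; simp [e]
  set S : E m → Set ℝ := fun x =>
    {c | ∃ k : E m → ℝ, CV k ∧ (∀ z, r ≤ ‖z‖ → k z = g z) ∧ c = k x} with hS
  have hne : ∀ x, (S x).Nonempty := fun x => ⟨g x, g, hg, fun _ _ => rfl, rfl⟩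
  have hfar : ∀ (x : E m) (s : ℝ), ‖x‖ < r → |s| = 2 * r → r ≤ ‖x + s • e₀‖ := by
    intro x s hx hs
    have h1 : ‖s • e₀‖ = 2 * r := by rw [norm_smul, he, mul_one, Real.norm_eq_abs, hs]
    have h2 : ‖s • e₀‖ ≤ ‖x + s • e₀‖ + ‖x‖ := by
      have := norm_sub_le (x + s • e₀) x
      rwa [add_sub_cancel_left] at this
    linarith
  have hbdd : ∀ x, BddAbove (S x) := by
    intro x
    by_cases hx : ‖x‖ < r
    · refine ⟨(1 / 2) * g (x + (2 * r) • e₀) + (1 / 2) * g (x + (-(2 * r)) • e₀), ?_⟩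
      rintro c ⟨k, hk, hkg, rfl⟩
      have h1 := hk.2 (mem_univ (x + (2 * r) • e₀)) (mem_univ (x + (-(2 * r)) • e₀))
        (show (0 : ℝ) ≤ 1 / 2 by norm_num) (show (0 : ℝ) ≤ 1 / 2 by norm_num) (by norm_num)
      have h2 : (1 / 2 : ℝ) • (x + (2 * r) • e₀) + (1 / 2 : ℝ) • (x + (-(2 * r)) • e₀) = x := by
        module
      rw [h2, smul_eq_mul, smul_eq_mul, hkg _ (hfar x _ hx (abs_of_pos (by positivity))),
        hkg _ (hfar x _ hx (by rw [abs_neg, abs_of_pos (by positivity)]))] at h1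
      exact h1
    · refine ⟨g x, ?_⟩
      rintro c ⟨k, hk, hkg, rfl⟩
      exact (hkg x (not_lt.1 hx)).le
  refine ⟨fun x => sSup (S x), ⟨convex_univ, ?_⟩, ?_, ?_, ?_⟩
  · intro a _ b _ p q hp hq hpq
    refine csSup_le (hne _) ?_
    rintro c ⟨k, hk, hkg, rfl⟩
    refine le_trans (hk.2 (mem_univ a) (mem_univ b) hp hq hpq) ?_
    simp only [smul_eq_mul]
    exact add_le_add
      (mul_le_mul_of_nonneg_left (le_csSup (hbdd a) ⟨k, hk, hkg, rfl⟩) hp)
      (mul_le_mul_of_nonneg_left (le_csSup (hbdd b) ⟨k, hk, hkg, rfl⟩) hq)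
  · intro x
    exact le_csSup (hbdd x) ⟨g, hg, fun _ _ => rfl, rfl⟩
  · intro x hx
    refine le_antisymm (csSup_le (hne x) ?_) (le_csSup (hbdd x) ⟨g, hg, fun _ _ => rfl, rfl⟩)
    rintro c ⟨k, hk, hkg, rfl⟩
    exact (hkg x hx).le
  · intro k hk hkg x
    exact le_csSup (hbdd x) ⟨k, hk, hkg, rfl⟩

end Pool.Agent.helper83.SC
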