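import Pool.Agent.helper83.SC.Stmt

/-! # Module GL1 : gluing -/

open scoped Pointwise ContDiff
open MeasureTheory Set Filter Topology

namespace Pool.Agent.helper83.SC

/-- a point of the segment which is in the ball and either the end or outside the small ball -/
theorem GL1_exists {m : ℕ} {r₁ r : ℝ} (hr : r₁ < r) (x d : E m) (hx : ‖x‖ < r₁) {α : ℝ} (hα : 0 < α) :
    ∃ s, 0 < s ∧ s ≤ α ∧ ‖x + s • d‖ < r ∧ (s = α ∨ r₁ ≤ ‖x + s • d‖) := by
  by_cases h : ‖x + α • d‖ < r
  · exact ⟨α, hα, le_rfl, h, Or.inl rfl⟩
  push Not at h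
  have hc : ContinuousOn (fun s : ℝ => ‖x + s • d‖) (Icc 0 α) := by fun_prop
  have hmem : (r₁ + r) / 2 ∈ Icc (‖x + (0 : ℝ) • d‖) (‖x + α • d‖) := by
    rw [zero_smul, add_zero]
    constructor <;> linarith
  obtain ⟨s, hs, he⟩ := intermediate_value_Icc hα.le hc hmem
  simp only at he
  refine ⟨s, ?_, hs.2, by rw [he]; linarith, Or.inr (by rw [he]; linarith)⟩
  rcases hs.1.lt_or_eq with h0 | h0
  · exact h0
  · rw [← h0, zero_smul, add_zero] at he
    linarith

theorem GL1_comb {m : ℕ} (x d b : E m) {p t : ℝ} (hp : p ≠ 0) (hb : x + p • d = b) :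
    ((p - t) / p) • x + (t / p) • b = x + t • d := by
  subst hb
  have e1 : (p - t) / p + t / p = 1 := by rw [← add_div, sub_add_cancel, div_self hp]
  have e2 : t / p * p = t := div_mul_cancel₀ _ hp
  calc ((p - t) / p) • x + (t / p) • (x + p • d)
      = ((p - t) / p + t / p) • x + (t / p * p) • d := by
        rw [smul_add, smul_smul, add_smul, add_assoc]
    _ = x + t • d := by rw [e1, e2, one_smul]

theorem GL1_mid {m : ℕ} (x a b : E m) {s t : ℝ} (h : s + t ≠ 0) :
    (t / (s + t)) • (x + s • (a - b)) + (s / (s + t)) • (x + t • (b - a)) = x := by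
  have h5 : t / (s + t) + s / (s + t) = 1 := by rw [← add_div, add_comm, div_self h]
  have h6 : s / (s + t) * t = t / (s + t) * s := by ring
  calc (t / (s + t)) • (x + s • (a - b)) + (s / (s + t)) • (x + t • (b - a))
      = (t / (s + t) + s / (s + t)) • x
        + ((t / (s + t) * s) • (a - b) + (s / (s + t) * t) • (b - a)) := by
        rw [smul_add, smul_add, smul_smul, smul_smul, add_smul]; abel
    _ = x := by
        rw [h5, h6, one_smul, ← smul_add]
        have : a - b + (b - a) = 0 := by abel
        rw [this, smul_zero, add_zero]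

theorem glue_of : glue_stmt := by
  intro m g k r₁ r hr hg hk h1 h2
  -- points outside the small ball
  have case1 : ∀ (a b : E m) (p q : ℝ), 0 ≤ p → 0 ≤ q → p + q = 1 → r₁ ≤ ‖p • a + q • b‖ →
      k (p • a + q • b) ≤ p * k a + q * k b := by
    intro a b p q hp hq hpq hn
    rw [h2 _ hn]
    refine le_trans (hg.2 (mem_univ a) (mem_univ b) hp hq hpq) ?_
    rw [smul_eq_mul, smul_eq_mul]
    exact add_le_add (mul_le_mul_of_nonneg_left (h1 a) hp) (mul_le_mul_of_nonneg_left (h1 b) hq)
  refine ⟨convex_univ, ?_⟩
  intro a _ b _ p q hp hq hpq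
  rw [smul_eq_mul, smul_eq_mul]
  by_cases hx : r₁ ≤ ‖p • a + q • b‖
  · exact case1 a b p q hp hq hpq hx
  push Not at hx
  rcases hp.eq_or_lt with hp0 | hp0
  · have : q = 1 := by linarith
    subst this
    rw [← hp0]
    simp
  rcases hq.eq_or_lt with hq0 | hq0
  · have : p = 1 := by linarith
    subst this
    rw [← hq0]
    simp
  set x := p • a + q • b with hxd
  -- `u t = k (x + t (b - a))`
  have hb : x + p • (b - a) = b := by
    rw [hxd, smul_sub]
    have : p • a + q • b + (p • b - p • a) = (p + q) • b := by rw [add_smul]; abel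
    rw [this, hpq, one_smul]
  have ha : x + q • (a - b) = a := by
    rw [hxd, smul_sub]
    have : p • a + q • b + (q • a - q • b) = (p + q) • a := by rw [add_smul]; abel
    rw [this, hpq, one_smul]
  obtain ⟨t, ht0, ht1, ht2, ht3⟩ := GL1_exists hr x (b - a) hx hp0
  obtain ⟨s, hs0, hs1, hs2, hs3⟩ := GL1_exists hr x (a - b) hx hq0
  -- the three inequalities
  have i1 : p * k (x + t • (b - a)) ≤ t * k b + (p - t) * k x := by
    rcases ht3 with ht3 | ht3
    · rw [ht3, hb]; simp
    · have e : ((p - t) / p) • x + (t / p) • b = x + t • (b - a) := GL1_comb x (b - a) b hp0.ne' hb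
      have := case1 x b ((p - t) / p) (t / p) (div_nonneg (by linarith) hp) (div_nonneg ht0.le hp)
        (by rw [← add_div, sub_add_cancel, div_self hp0.ne']) (by rw [e]; exact ht3)
      rw [e] at this
      have h3 := mul_le_mul_of_nonneg_left this hp
      have h4 : p * ((p - t) / p * k x + t / p * k b) = t * k b + (p - t) * k x := by
        field_simp
        ring
      linarith
  have i2 : q * k (x + s • (a - b)) ≤ s * k a + (q - s) * k x := by
    rcases hs3 with hs3 | hs3
    · rw [hs3, ha]; simp
    · have e : ((q - s) / q) • x + (s / q) • a = x + s • (a - b) := GL1_comb x (a - b) a hq0.ne' ha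
      have := case1 x a ((q - s) / q) (s / q) (div_nonneg (by linarith) hq) (div_nonneg hs0.le hq)
        (by rw [← add_div, sub_add_cancel, div_self hq0.ne']) (by rw [e]; exact hs3)
      rw [e] at this
      have h3 := mul_le_mul_of_nonneg_left this hq
      have h4 : q * ((q - s) / q * k x + s / q * k a) = s * k a + (q - s) * k x := by
        field_simp
        ring
      linarith
  have hst : 0 < s + t := by linarith
  have i3 : (s + t) * k x ≤ t * k (x + s • (a - b)) + s * k (x + t • (b - a)) := by
    have e := GL1_mid x a b hst.ne'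
    have := hk.2 (mem_ball_zero_iff.2 hs2) (mem_ball_zero_iff.2 ht2)
      (div_nonneg ht0.le hst.le) (div_nonneg hs0.le hst.le)
      (by rw [← add_div, add_comm, div_self hst.ne'])
    rw [e, smul_eq_mul, smul_eq_mul] at this
    have h3 := mul_le_mul_of_nonneg_left this hst.le
    have h4 : (s + t) * (t / (s + t) * k (x + s • (a - b)) + s / (s + t) * k (x + t • (b - a)))
        = t * k (x + s • (a - b)) + s * k (x + t • (b - a)) := by
      field_simp
    linarith
  -- conclusion
  have j1 : s * (q * (p * k (x + t • (b - a)))) ≤ s * (q * (t * k b + (p - t) * k x)) := by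
    exact mul_le_mul_of_nonneg_left (mul_le_mul_of_nonneg_left i1 hq) hs0.le
  have j2 : t * (p * (q * k (x + s • (a - b)))) ≤ t * (p * (s * k a + (q - s) * k x)) := by
    exact mul_le_mul_of_nonneg_left (mul_le_mul_of_nonneg_left i2 hp) ht0.le
  have j3 : p * q * ((s + t) * k x)
      ≤ p * q * (t * k (x + s • (a - b)) + s * k (x + t • (b - a))) :=
    mul_le_mul_of_nonneg_left i3 (mul_nonneg hp hq)
  have j4 : s * t * ((p + q) * k x) ≤ s * t * (p * k a + q * k b) := by nlinarith
  rw [hpq, one_mul] at j4
  exact le_of_mul_le_mul_left j4 (mul_pos hs0 ht0)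

end Pool.Agent.helper83.SC
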