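import Pool.Agent.helper83.SC.Stmt

/-! # Module GL2 : a strongly convex modification -/

open scoped Pointwise ContDiff
open MeasureTheory Set Filter Topology

namespace Pool.Agent.helper83.SC

theorem GL2_cont {m : ℕ} {f : E m → ℝ} (hf : CV f) : Continuous f :=
  (ConvexOn.locallyLipschitz hf).continuous

theorem GL2_normSq {m : ℕ} (c : ℝ) (hc : 0 ≤ c) : CV (fun x : E m => c * ‖x‖ ^ 2 / 2) := by
  have h : ConvexOn ℝ univ (fun x : E m => ‖x‖ ^ 2) :=
    convexOn_univ_norm.pow (fun _ _ => norm_nonneg _) 2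
  have h2 := h.smul (show (0 : ℝ) ≤ c / 2 by positivity)
  have e : (fun x : E m => c * ‖x‖ ^ 2 / 2) = fun x => (c / 2) • ‖x‖ ^ 2 := by
    funext x
    rw [smul_eq_mul]
    ring
  rw [CV, e]
  exact h2

theorem exists_strong_of (hglue : glue_stmt) : exists_strong_stmt := by
  intro m g G r hr hg hG h1 h2 h0
  have cg := GL2_cont hg
  have cG := GL2_cont hG
  set δ : ℝ := (G 0 - g 0) / 2 with hδ
  have hδ0 : 0 < δ := by rw [hδ]; linarith
  set ε : ℝ := δ / (2 * r ^ 2) with hε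
  have hε0 : 0 < ε := by positivity
  have hεr : ε * r ^ 2 = δ / 2 := by rw [hε]; field_simp
  set w : E m → ℝ := fun x => G x + ε * ‖x‖ ^ 2 / 2 - δ with hw
  have cw : Continuous w := by rw [hw]; fun_prop
  have hwC : CV w := by
    have h3 : ConvexOn ℝ univ (fun x => G x + ε * ‖x‖ ^ 2 / 2) := hG.add (GL2_normSq ε hε0.le)
    have h4 := h3.add (convexOn_const (-δ) convex_univ)
    have e : w = fun x => G x + ε * ‖x‖ ^ 2 / 2 + -δ := by
      funext x; rw [hw]; ring
    rw [CV, e]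
    exact h4
  -- the annulus
  obtain ⟨r₁, hr₁, hr₁0, hann⟩ : ∃ r₁ < r, 0 < r₁ ∧ ∀ x, r₁ ≤ ‖x‖ → ‖x‖ ≤ r → w x ≤ g x := by
    have hK : IsCompact {x : E m | ‖x‖ ≤ r ∧ g x + δ / 2 ≤ G x} := by
      have e : {x : E m | ‖x‖ ≤ r ∧ g x + δ / 2 ≤ G x}
          = Metric.closedBall 0 r ∩ {x | g x + δ / 2 ≤ G x} := by
        ext x; simp
      rw [e]
      exact (isCompact_closedBall _ _).inter_right (isClosed_le (cg.add continuous_const) cG)
    have hne : {x : E m | ‖x‖ ≤ r ∧ g x + δ / 2 ≤ G x}.Nonempty :=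
      ⟨0, by rw [norm_zero]; exact hr.le, by rw [hδ]; linarith⟩
    obtain ⟨x₁, hx₁, hmax⟩ := hK.exists_isMaxOn hne continuous_norm.continuousOn
    have hlt : ‖x₁‖ < r := by
      rcases hx₁.1.lt_or_eq with h | h
      · exact h
      · have := h2 x₁ h.ge
        have := hx₁.2
        linarith
    refine ⟨(‖x₁‖ + r) / 2, by linarith, by have := norm_nonneg x₁; linarith, ?_⟩
    intro x hx hxr
    have hxn : ¬ (‖x‖ ≤ r ∧ g x + δ / 2 ≤ G x) := by
      intro hx'
      have := hmax hx'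
      simp only [Set.mem_ofPred_eq] at this
      linarith
    have hlt' : G x < g x + δ / 2 := by
      by_contra hcon
      exact hxn ⟨hxr, not_lt.1 hcon⟩
    have hsq : ε * ‖x‖ ^ 2 ≤ ε * r ^ 2 :=
      mul_le_mul_of_nonneg_left (pow_le_pow_left₀ (norm_nonneg _) hxr 2) hε0.le
    simp only [hw]
    linarith
  classical
  set k : E m → ℝ := fun x => if ‖x‖ < r then max (g x) (w x) else g x with hk
  have hkin : ∀ x, ‖x‖ < r → k x = max (g x) (w x) := fun x hx => by simp only [hk, if_pos hx]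
  have hkout : ∀ x, r ≤ ‖x‖ → k x = g x := fun x hx => by simp only [hk, if_neg (not_lt.2 hx)]
  have hkr₁ : ∀ x, r₁ ≤ ‖x‖ → k x = g x := by
    intro x hx
    by_cases hxr : ‖x‖ < r
    · rw [hkin x hxr, max_eq_left (hann x hx hxr.le)]
    · exact hkout x (not_lt.1 hxr)
  have hge : ∀ x, g x ≤ k x := by
    intro x
    by_cases hxr : ‖x‖ < r
    · rw [hkin x hxr]; exact le_max_left _ _
    · rw [hkout x (not_lt.1 hxr)]
  have hkball : ConvexOn ℝ (Metric.ball 0 r) k := by
    have h5 : ConvexOn ℝ (Metric.ball (0 : E m) r) (g ⊔ w) :=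
      (hg.subset (subset_univ _) (convex_ball _ _)).sup (hwC.subset (subset_univ _) (convex_ball _ _))
    refine h5.congr ?_
    intro x hx
    rw [hkin x (mem_ball_zero_iff.1 hx)]
    rfl
  have hkCV : CV k := hglue hr₁ hg hkball hge hkr₁
  -- near the origin
  have hopen : ∀ᶠ x in 𝓝 (0 : E m), g x < w x := by
    have h6 : g 0 < w 0 := by
      simp only [hw, norm_zero]
      rw [hδ]
      norm_num
      linarith
    exact (cg.continuousAt).eventually_lt cw.continuousAt h6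
  obtain ⟨ρ', hρ', hball⟩ := Metric.eventually_nhds_iff_ball.1 hopen
  refine ⟨k, ε, δ, min ρ' r, hε0, lt_min hρ' hr, hkCV, hkout, ?_⟩
  intro x hx
  rw [hkin x (lt_of_lt_of_le hx (min_le_right _ _)), max_eq_right]
  exact (hball x (mem_ball_zero_iff.2 (lt_of_lt_of_le hx (min_le_left _ _)))).le

end Pool.Agent.helper83.SC
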