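import Pool.Agent.helper83.SC.Stmt

/-! # Module UB : the slices of the subgradient image are small -/

open scoped Pointwise ContDiff
open MeasureTheory Set Filter Topology

namespace Pool.Agent.helper83.SC

/-- upper bound of `h = f + t g` in a direction in which `f` is flat -/
theorem UB_upper {m : ℕ} {f g : E m → ℝ} {t M : ℝ} (ht : 0 < t) {y v p : E m}
    (hv : f (y + v) + f (y - v) = 2 * f y)
    (hp : IsArgmin (fun x => f x + t * g x) p y)
    (hM1 : g (y + v) - g y ≤ M * ‖v‖) (hM2 : g (y - v) - g y ≤ M * ‖v‖) :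
    f (y + v) + t * g (y + v) ≤ f y + t * g y + inner ℝ p v + 2 * t * M * ‖v‖ := by
  have h1 := hp (y - v)
  simp only [inner_sub_right] at h1
  have h2 : t * (g (y + v) - g y) ≤ t * (M * ‖v‖) := mul_le_mul_of_nonneg_left hM1 ht.le
  have h3 : t * (g (y - v) - g y) ≤ t * (M * ‖v‖) := mul_le_mul_of_nonneg_left hM2 ht.le
  nlinarith

theorem slice_small_of (h1 : loc_lip_stmt) : slice_small_stmt := by
  intro m f g hf hg T N R
  obtain ⟨L, hL⟩ := h1 (g := fun _ => g) (f := g) (fun _ => hg) (fun x => tendsto_const_nhds)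
    (R + ((N : ℝ) + 1))
  have hL' : ∀ x y : E m, ‖x‖ ≤ R + ((N : ℝ) + 1) → ‖y‖ ≤ R + ((N : ℝ) + 1) →
      g x - g y ≤ |L| * ‖x - y‖ := by
    intro x y hx hy
    refine le_trans (le_abs_self _) (le_trans (hL 0 x y hx hy) ?_)
    exact mul_le_mul_of_nonneg_right (le_abs_self _) (norm_nonneg _)
  refine ⟨4 * |L| * ((N : ℝ) + 1) ^ 2 + 1, by positivity, ?_⟩
  intro t ht ht1 y z p q hy hz hyR hzR hyz hp hq hT
  have hN : (0 : ℝ) < (N : ℝ) + 1 := by positivity
  by_cases hpq : p = q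
  · subst hpq
    rw [sub_self, norm_zero]
    positivity
  have hn : 0 < ‖p - q‖ := norm_pos_iff.2 (sub_ne_zero.2 hpq)
  set s : ℝ := 1 / ((N : ℝ) + 1) with hs
  have hs0 : 0 < s := by positivity
  set c : E m := -((1 / 2 : ℝ) • ((y - z) + (s / ‖p - q‖) • (p - q))) with hc
  have hcn : ‖c‖ ≤ s := by
    rw [hc, norm_neg, norm_smul]
    have : ‖(y - z) + (s / ‖p - q‖) • (p - q)‖ ≤ s + s := by
      refine le_trans (norm_add_le _ _) (add_le_add hyz ?_)
      rw [norm_smul, Real.norm_eq_abs, abs_of_pos (by positivity), div_mul_cancel₀ _ hn.ne']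
    rw [Real.norm_eq_abs, abs_of_pos (by norm_num : (0 : ℝ) < 1 / 2)]
    linarith
  obtain ⟨v, hv1, hv2, hv3⟩ := hy c hcn
  obtain ⟨w, hw1, hw2, hw3⟩ := hz (-c) (by rwa [norm_neg])
  have nyv : ‖y + v‖ ≤ R + ((N : ℝ) + 1) := le_trans (norm_add_le _ _) (add_le_add hyR hv2)
  have nyv' : ‖y - v‖ ≤ R + ((N : ℝ) + 1) := le_trans (norm_sub_le _ _) (add_le_add hyR hv2)
  have nzw : ‖z + w‖ ≤ R + ((N : ℝ) + 1) := le_trans (norm_add_le _ _) (add_le_add hzR hw2)
  have nzw' : ‖z - w‖ ≤ R + ((N : ℝ) + 1) := le_trans (norm_sub_le _ _) (add_le_add hzR hw2)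
  have ny : ‖y‖ ≤ R + ((N : ℝ) + 1) := by linarith
  have nz : ‖z‖ ≤ R + ((N : ℝ) + 1) := by linarith
  have u1 := UB_upper (M := |L|) ht hv3 hp
    (by have := hL' (y + v) y nyv ny; rwa [add_sub_cancel_left] at this)
    (by have := hL' (y - v) y nyv' ny
        rwa [sub_sub_cancel_left, norm_neg] at this)
  have u2 := UB_upper (M := |L|) ht hw3 hq
    (by have := hL' (z + w) z nzw nz; rwa [add_sub_cancel_left] at this)
    (by have := hL' (z - w) z nzw' nz
        rwa [sub_sub_cancel_left, norm_neg] at this)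
  have l1 := hq (y + v)
  have l2 := hp (z + w)
  simp only [inner_add_right] at l1 l2
  -- the inner product
  have key : inner ℝ (p - q) ((y - z) + v - w) = - (s * ‖p - q‖) := by
    have hcoord : ∀ i, inner ℝ ((p - q) i) (((y - z) + v - w) i)
        = inner ℝ ((p - q) i) ((-(s / ‖p - q‖) • (p - q)) i) := by
      intro i
      by_cases hi : i ∈ T
      · congr 1
        have e1 := hv1 i hi
        have e2 := hw1 i hi
        have e3 : ((y - z) + v - w) i = (y - z) i + v i - w i := rfl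
        have e4 : (-c) i = - (c i) := rfl
        have e5 : c i = -((1 / 2 : ℝ) * ((y - z) i + (s / ‖p - q‖) * (p - q) i)) := rfl
        have e6 : (-(s / ‖p - q‖) • (p - q)) i = -(s / ‖p - q‖) * (p - q) i := rfl
        rw [e3, e1, e2, e4, e5, e6]
        ring
      · have : (p - q) i = 0 := by
          have e : (p - q) i = p i - q i := rfl
          rw [e, hT i hi, sub_self]
        rw [this, inner_zero_left, inner_zero_left]
    rw [PiLp.inner_apply]
    rw [Finset.sum_congr rfl fun i _ => hcoord i]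
    rw [← PiLp.inner_apply, inner_smul_right, real_inner_self_eq_norm_sq]
    field_simp
  have e : inner ℝ (p - q) ((y - z) + v - w)
      = inner ℝ p y - inner ℝ p z + inner ℝ p v - inner ℝ p w
        - (inner ℝ q y - inner ℝ q z + inner ℝ q v - inner ℝ q w) := by
    simp only [inner_sub_left, inner_sub_right, inner_add_right]
    ring
  rw [e] at key
  have hvw : 2 * t * |L| * ‖v‖ ≤ 2 * t * |L| * ((N : ℝ) + 1) :=
    mul_le_mul_of_nonneg_left hv2 (by positivity)
  have hvw' : 2 * t * |L| * ‖w‖ ≤ 2 * t * |L| * ((N : ℝ) + 1) :=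
    mul_le_mul_of_nonneg_left hw2 (by positivity)
  have hfin : s * ‖p - q‖ ≤ 4 * t * |L| * ((N : ℝ) + 1) := by linarith
  have hfin2 : ‖p - q‖ ≤ 4 * t * |L| * ((N : ℝ) + 1) * ((N : ℝ) + 1) := by
    rw [hs, one_div, inv_mul_le_iff₀ hN] at hfin
    linarith
  have : (4 * |L| * ((N : ℝ) + 1) ^ 2 + 1) * t
      = 4 * t * |L| * ((N : ℝ) + 1) * ((N : ℝ) + 1) + t := by ring
  rw [this]
  linarith

end Pool.Agent.helper83.SC
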